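import Pool.Agent.H305rw.Asym

/-!
Random walks of length `n (log n)^K` cannot be simulated with polylogarithmically many passes and
`n` times polylogarithmic space.
-/

namespace Pool.Agent.Results.MP_dcdb0f_lc.NoPolylogPasses

open MeasureTheory Pool.Agent.H305rw

theorem result (c : ℕ) (C : ℝ) : ∃ K : ℕ, ∀ᶠ n : ℕ in Filter.atTop,
    ∀ l p S : ℕ, l = n * Nat.log 2 n ^ K →
      (p : ℝ) ≤ C * Real.log (n + l) ^ c → (S : ℝ) ≤ C * n * Real.log (n + l) ^ c →
      ∀ (Ω σ : Type) [MeasurableSpace Ω] [Fintype σ] (μ : Measure Ω) [IsProbabilityMeasure μ]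
        (alg : Fin n → Ω → Machine n σ), Fintype.card σ ≤ 2 ^ S → ¬ Simulates μ alg p l :=
  Pool.Agent.H305rw.negated_form c C

end Pool.Agent.Results.MP_dcdb0f_lc.NoPolylogPasses
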